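import Pool.Agent.Y795.PiH.Stm

/-!
# PH9: the kernel modulo `p`
-/

set_option autoImplicit false

open Polynomial

namespace Pool.Agent.Y287.PiH

open Pool.Agent.Y795.PiH

theorem D_eq (p : ℕ) : (X ^ 2 - 8 : (ZMod p)[X]) = X ^ 2 - C 8 := by
  have e8 : (8 : (ZMod p)[X]) = C (8 : ZMod p) := (map_ofNat C 8).symm
  rw [← e8]

theorem monic_D (p : ℕ) [Fact p.Prime] : (X ^ 2 - 8 : (ZMod p)[X]).Monic := by
  rw [D_eq]
  exact monic_X_pow_sub_C (8 : ZMod p) two_ne_zero

theorem natDegree_D (p : ℕ) [Fact p.Prime] : (X ^ 2 - 8 : (ZMod p)[X]).natDegree = 2 := by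
  rw [D_eq]
  exact natDegree_X_pow_sub_C

theorem monic_EE (p : ℕ) [Fact p.Prime] : (EE p).Monic := (monic_D p).pow _

theorem natDegree_EE (p : ℕ) [Fact p.Prime] (hp : 5 ≤ p) : (EE p).natDegree = p - 1 := by
  have hpp : p.Prime := Fact.out
  have hodd : p % 2 = 1 := by
    rcases hpp.eq_two_or_odd with h | h
    · omega
    · exact h
  unfold EE
  rw [(monic_D p).natDegree_pow, natDegree_D]
  omega

/-- the polynomial with given coefficients below `p` -/
noncomputable def PP {F : Type*} [CommRing F] (p : ℕ) (f : ℕ → F) : F[X] :=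
  ∑ i ∈ Finset.range p, C (f i) * X ^ i

theorem coeff_PP {F : Type*} [CommRing F] (p : ℕ) (f : ℕ → F) (n : ℕ) :
    (PP p f).coeff n = if n < p then f n else 0 := by
  unfold PP
  rw [finsetSum_coeff]
  simp only [coeff_C_mul_X_pow]
  rw [Finset.sum_ite_eq]
  simp

theorem natDegree_PP {F : Type*} [CommRing F] (p : ℕ) (f : ℕ → F) :
    (PP p f).natDegree ≤ p - 1 := by
  rw [natDegree_le_iff_coeff_eq_zero]
  intro n hn
  rw [coeff_PP, if_neg (by omega)]

/-- a multiple of `E` of degree at most the degree of `E` -/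
theorem eq_const {F : Type*} [Field F] {E A : F[X]} (hE : E.Monic)
    (hA : A.natDegree ≤ E.natDegree) (h : E ∣ A) : A = C (A.coeff E.natDegree) * E := by
  obtain ⟨B, rfl⟩ := h
  by_cases hB : B = 0
  · subst hB
    simp
  have hdeg : (E * B).natDegree = E.natDegree + B.natDegree := natDegree_mul hE.ne_zero hB
  have hB0 : B.natDegree = 0 := by omega
  obtain ⟨c, rfl⟩ := natDegree_eq_zero.1 hB0
  rw [coeff_mul_C, hE.coeff_natDegree, one_mul, mul_comm]

theorem coprime (p : ℕ) [Fact p.Prime] {l0 l1 : ZMod p} (h : l1 ^ 2 ≠ 8 * l0 ^ 2) :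
    IsCoprime (EE p) (C l0 * X ^ p - C l1) := by
  have h0 : l1 ^ 2 - 8 * l0 ^ 2 ≠ 0 := sub_ne_zero.2 h
  have h1 : IsCoprime (X ^ 2 - 8 : (ZMod p)[X]) (C l0 * X - C l1) := by
    refine ⟨C ((l1 ^ 2 - 8 * l0 ^ 2)⁻¹ * l0 ^ 2),
      -(C ((l1 ^ 2 - 8 * l0 ^ 2)⁻¹) * (C l0 * X + C l1)), ?_⟩
    rw [D_eq]
    have e1 : C ((l1 ^ 2 - 8 * l0 ^ 2)⁻¹ * l0 ^ 2) * (X ^ 2 - C 8) +
        -(C ((l1 ^ 2 - 8 * l0 ^ 2)⁻¹) * (C l0 * X + C l1)) * (C l0 * X - C l1) =
        C ((l1 ^ 2 - 8 * l0 ^ 2)⁻¹ * (l1 ^ 2 - 8 * l0 ^ 2)) := by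
      simp only [C_mul, C_sub, C_pow]
      ring
    rw [e1, inv_mul_cancel₀ h0, C_1]
  have h2 : C l0 * X ^ p - C l1 = (C l0 * X - C l1) ^ p := by
    rw [sub_pow_char, mul_pow, ← C_pow, ← C_pow, ZMod.pow_card, ZMod.pow_card]
  rw [h2]
  exact h1.pow

theorem ker : S_ker := by
  intro p _ hp V l0 l1 l2 hV hrel h8 h02
  have hpp : p.Prime := Fact.out
  set E := EE p with hEdef
  have hE : E.Monic := monic_EE p
  have hEd : E.natDegree = p - 1 := natDegree_EE p hp
  set W := E * V with hW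
  have hWd : W.natDegree ≤ 2 * p - 1 := by
    refine le_trans natDegree_mul_le ?_
    omega
  have hW0 : ∀ n, 2 * p ≤ n → W.coeff n = 0 := fun n hn =>
    coeff_eq_zero_of_natDegree_lt (by omega)
  have hrho : ∀ i j, rho p (V * X ^ i) j =
      if i ≤ p * j + (p - 1) then W.coeff (p * j + (p - 1) - i) else 0 := by
    intro i j
    unfold rho
    rw [← mul_assoc, coeff_mul_X_pow']
  -- relations
  have hrel1 : ∀ n, n < p → l0 * W.coeff n + l1 * W.coeff (p + n) = 0 := by
    intro n hn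
    have h := hrel (p - 1 - n) (by omega)
    rw [hrho, hrho, hrho, if_pos (by omega), if_pos (by omega), if_pos (by omega)] at h
    have e0 : p * 0 + (p - 1) - (p - 1 - n) = n := by omega
    have e1 : p * 1 + (p - 1) - (p - 1 - n) = p + n := by omega
    rw [e0, e1, hW0 (p * 2 + (p - 1) - (p - 1 - n)) (by omega), mul_zero, add_zero] at h
    exact h
  have hrel2 : l1 * W.coeff (p - 1) + l2 * W.coeff (p + (p - 1)) = 0 := by
    have h := hrel p le_rfl
    rw [hrho, hrho, hrho, if_neg (by omega), if_pos (by omega), if_pos (by omega)] at h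
    have e0 : p * 1 + (p - 1) - p = p - 1 := by omega
    have e1 : p * 2 + (p - 1) - p = p + (p - 1) := by omega
    rw [e0, e1, mul_zero, zero_add] at h
    exact h
  set A := PP p (fun n => W.coeff n) with hA
  set B := PP p (fun n => W.coeff (p + n)) with hB
  have hWAB : W = A + X ^ p * B := by
    ext n
    rw [coeff_add, hA, coeff_PP, coeff_X_pow_mul']
    by_cases h1 : n < p
    · rw [if_pos h1, if_neg (by omega), add_zero]
    · rw [if_neg h1, if_pos (by omega), hB, coeff_PP, zero_add]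
      by_cases h2 : n - p < p
      · rw [if_pos h2]
        congr 1
        omega
      · rw [if_neg h2]
        exact hW0 n (by omega)
  have hAB : C l0 * A + C l1 * B = 0 := by
    ext n
    rw [coeff_add, coeff_C_mul, coeff_C_mul, hA, hB, coeff_PP, coeff_PP, coeff_zero]
    by_cases h1 : n < p
    · rw [if_pos h1, if_pos h1]
      exact hrel1 n h1
    · rw [if_neg h1, if_neg h1]
      ring
  have hco := coprime p h8
  have hEB : E ∣ B := by
    refine hco.dvd_of_dvd_mul_left ?_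
    have : (C l0 * X ^ p - C l1) * B = E * (C l0 * V) := by
      have h1 : E * (C l0 * V) = C l0 * W := by rw [hW]; ring
      rw [h1, hWAB]
      linear_combination (-1 : (ZMod p)[X]) * hAB
    rw [this]
    exact dvd_mul_right _ _
  have hEA : E ∣ A := by
    refine hco.dvd_of_dvd_mul_left ?_
    have : (C l0 * X ^ p - C l1) * A = E * (-(C l1 * V)) := by
      have h1 : E * (-(C l1 * V)) = -(C l1 * W) := by rw [hW]; ring
      rw [h1, hWAB]
      linear_combination (X ^ p : (ZMod p)[X]) * hAB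
    rw [this]
    exact dvd_mul_right _ _
  have hA1 := eq_const hE (by rw [hEd]; exact natDegree_PP p _) hEA
  have hB1 := eq_const hE (by rw [hEd]; exact natDegree_PP p _) hEB
  have hca : A.coeff E.natDegree = W.coeff (p - 1) := by
    rw [hEd, hA, coeff_PP, if_pos (by omega)]
  have hcb : B.coeff E.natDegree = W.coeff (p + (p - 1)) := by
    rw [hEd, hB, coeff_PP, if_pos (by omega)]
  rw [hca] at hA1
  rw [hcb] at hB1
  have hr1 := hrel1 (p - 1) (by omega)
  have hdet : l1 ^ 2 - l0 * l2 ≠ 0 := sub_ne_zero.2 h02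
  have hc1 : W.coeff (p + (p - 1)) = 0 := by
    have : (l1 ^ 2 - l0 * l2) * W.coeff (p + (p - 1)) = 0 := by
      linear_combination l1 * hr1 - l0 * hrel2
    exact (mul_eq_zero.1 this).resolve_left hdet
  have hc0 : W.coeff (p - 1) = 0 := by
    have : (l1 ^ 2 - l0 * l2) * W.coeff (p - 1) = 0 := by
      linear_combination l1 * hrel2 - l2 * hr1
    exact (mul_eq_zero.1 this).resolve_left hdet
  have hWz : W = 0 := by
    rw [hWAB, hA1, hB1, hc0, hc1]
    simp
  rw [hW] at hWz
  exact (mul_eq_zero.1 hWz).resolve_left hE.ne_zero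

end Pool.Agent.Y287.PiH
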