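import Pool.Agent.Y795.PiH.Stm

/-!
# PH6: the homogeneous differential equation modulo `p`
-/

set_option autoImplicit false

open Polynomial

namespace Pool.Agent.Y287.PiH

open Pool.Agent.Y795.PiH

theorem eight_ne {p : ℕ} [Fact p.Prime] (hp : 3 ≤ p) : (8 : ZMod p) ≠ 0 := by
  have h2 : (2 : ZMod p) ≠ 0 := by
    intro h
    have h' : ((2 : ℕ) : ZMod p) = 0 := by exact_mod_cast h
    rw [ZMod.natCast_eq_zero_iff] at h'
    have := Nat.le_of_dvd (by norm_num) h'
    omega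
  have : (8 : ZMod p) = 2 ^ 3 := by norm_num
  rw [this]
  exact pow_ne_zero _ h2

theorem sep {p : ℕ} [Fact p.Prime] (hp : 3 ≤ p) : ((X ^ 2 - 8 : (ZMod p)[X])).Separable := by
  have h8 := eight_ne (p := p) hp
  have h16 : (16 : ZMod p) ≠ 0 := by
    have : (16 : ZMod p) = 8 * 8 / 4 := by
      have h4 : (4 : ZMod p) ≠ 0 := by
        intro h
        apply h8
        have : (8 : ZMod p) = 4 * 2 := by norm_num
        rw [this, h, zero_mul]
      rw [eq_div_iff h4]
      norm_num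
    intro h
    apply h8
    have h64 : (8 : ZMod p) * 8 = 16 * 4 := by norm_num
    rw [h, zero_mul] at h64
    rcases mul_eq_zero.1 h64 with h | h <;> exact h
  rw [separable_def]
  have hd : derivative (X ^ 2 - 8 : (ZMod p)[X]) = 2 * X := by
    rw [derivative_sub, derivative_ofNat, derivative_X_pow, sub_zero, Nat.cast_ofNat,
      (map_ofNat C 2 : C (2 : ZMod p) = 2), pow_one]
  rw [hd]
  refine ⟨C (-(8 : ZMod p)⁻¹), C ((16 : ZMod p)⁻¹) * X, ?_⟩
  have e8 : (8 : (ZMod p)[X]) = C (8 : ZMod p) := (map_ofNat C 8).symm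
  have e2 : (2 : (ZMod p)[X]) = C (2 : ZMod p) := (map_ofNat C 2).symm
  rw [e8, e2]
  have h1 : C (-(8 : ZMod p)⁻¹) * (X ^ 2 - C 8) + C ((16 : ZMod p)⁻¹) * X * (C 2 * X) =
      C (-(8 : ZMod p)⁻¹ + (16 : ZMod p)⁻¹ * 2) * X ^ 2 + C ((8 : ZMod p)⁻¹ * 8) := by
    simp only [C_add, C_mul, C_neg]
    ring
  rw [h1]
  have h2 : -(8 : ZMod p)⁻¹ + (16 : ZMod p)⁻¹ * 2 = 0 := by
    field_simp
    norm_num
  rw [h2, inv_mul_cancel₀ h8]
  simp

theorem ode : S_ode := by
  intro p _ hp Φ hΦ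
  have hpp : p.Prime := Fact.out
  have hodd : p % 2 = 1 := by
    rcases hpp.eq_two_or_odd with h | h
    · omega
    · exact h
  set m := (p + 1) / 2 with hm
  have hm1 : m = (m - 1) + 1 := by omega
  have h2m : 2 * m = p + 1 := by omega
  set D : (ZMod p)[X] := X ^ 2 - 8 with hD
  have hD0 : D ≠ 0 := by
    have e8 : (8 : (ZMod p)[X]) = C (8 : ZMod p) := (map_ofNat C 8).symm
    rw [hD, e8]
    exact (monic_X_pow_sub_C (8 : ZMod p) two_ne_zero).ne_zero
  have hdD : derivative D = 2 * X := by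
    rw [hD, derivative_sub, derivative_ofNat, derivative_X_pow, sub_zero, Nat.cast_ofNat,
      (map_ofNat C 2 : C (2 : ZMod p) = 2), pow_one]
  have hder : derivative (Φ * D ^ m) = 0 := by
    have h2 : ((2 * m : ℕ) : (ZMod p)[X]) = 1 := by
      rw [h2m]
      push_cast
      rw [CharP.cast_eq_zero]
      ring
    rw [derivative_mul, derivative_pow, hdD]
    have h3 : derivative Φ * D ^ m + Φ * (C (m : ZMod p) * D ^ (m - 1) * (2 * X)) =
        D ^ (m - 1) * (D * derivative Φ + ((2 * m : ℕ) : (ZMod p)[X]) * X * Φ) := by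
      have : D ^ m = D ^ (m - 1) * D := by
        rw [← pow_succ, ← hm1]
      rw [this]
      have hc : (C (m : ZMod p) : (ZMod p)[X]) = (m : (ZMod p)[X]) := by simp
      rw [hc]
      push_cast
      ring
    rw [h3, h2, one_mul, hΦ, mul_zero]
  set f := contract p (Φ * D ^ m) with hf
  have hexp : f ^ p = Φ * D ^ m := by
    rw [← ZMod.expand_card, hf]
    exact expand_contract p hder hpp.ne_zero
  have hdvd : D ∣ f := by
    rw [← (sep (p := p) (by omega)).squarefree.dvd_pow_iff_dvd hpp.ne_zero, hexp]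
    exact Dvd.dvd.mul_left (dvd_pow_self D (by omega)) Φ
  obtain ⟨f1, hf1⟩ := hdvd
  refine ⟨f1, ?_⟩
  have hkey : D ^ m * Φ = D ^ m * (D ^ ((p - 1) / 2) * f1 ^ p) := by
    rw [mul_comm, ← hexp, hf1, mul_pow, ← mul_assoc, ← pow_add]
    congr 2
    omega
  rw [ZMod.expand_card, EE]
  exact mul_left_cancel₀ (pow_ne_zero _ hD0) hkey

end Pool.Agent.Y287.PiH
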